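import Mathlib
import Pool.Agent.H773.IE.SM

/-! IE-FAT (helper665): the Fatou argument. -/

set_option autoImplicit false

open MeasureTheory Set Filter Topology
open scoped ENNReal

namespace Pool.Agent.H665.IE

open Pool.Agent.H773.IE

/-- the points of `Xinf` with the parameter `1/(j+1)` -/
theorem xinf_eq (a b : ℕ → ℝ) :
    Xinf a b = ⋂ j : ℕ, ⋃ k : ℕ, {x | x ∈ Ico (a k) (b k) ∧ b k - a k < 1 / ((j : ℝ) + 1)} := by
  ext x
  simp only [mem_iInter, mem_iUnion]
  constructor
  · intro h j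
    exact h _ (by positivity)
  · intro h δ hδ
    obtain ⟨j, hj⟩ := exists_nat_one_div_lt hδ
    obtain ⟨k, hk1, hk2⟩ := h j
    exact ⟨k, hk1, hk2.trans hj⟩

theorem meas_xinf (a b : ℕ → ℝ) : MeasurableSet (Xinf a b) := by
  rw [xinf_eq]
  refine MeasurableSet.iInter fun j => MeasurableSet.iUnion fun k => ?_
  exact measurableSet_Ico.inter (MeasurableSet.const _)

theorem t_fatou : S_fatou := by
  intro Ω _ ν _ a b B β hB hβ κ
  have hex : ∀ (x : ℝ) (ω : Ω), (∃ r : ℝ, 0 < r ∧ ∀ k, x ∈ Ico (a k) (b k) → b k - a k < r →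
      ω ∈ B k) ↔ ∃ j : ℕ, ∀ k, x ∈ Ico (a k) (b k) → b k - a k < 1 / ((j : ℝ) + 1) → ω ∈ B k := by
    intro x ω
    constructor
    · rintro ⟨r, hr, h⟩
      obtain ⟨j, hj⟩ := exists_nat_one_div_lt hr
      exact ⟨j, fun k hk1 hk2 => h k hk1 (hk2.trans hj)⟩
    · rintro ⟨j, h⟩
      exact ⟨_, by positivity, h⟩
  let D : Set (Ω × ℝ) := {p | p.2 ∈ Xinf a b ∧ ∃ r : ℝ, 0 < r ∧
    ∀ k, p.2 ∈ Ico (a k) (b k) → b k - a k < r → p.1 ∈ B k}
  have hDeq : D = {p : Ω × ℝ | p.2 ∈ Xinf a b} ∩ ⋃ j : ℕ, ⋂ k : ℕ,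
      ({p : Ω × ℝ | p.2 ∉ Ico (a k) (b k)} ∪ ({p : Ω × ℝ | ¬ b k - a k < 1 / ((j : ℝ) + 1)} ∪
        {p : Ω × ℝ | p.1 ∈ B k})) := by
    ext p
    simp only [D, mem_inter_iff, mem_setOf_eq, mem_iUnion, mem_iInter, mem_union]
    refine and_congr_right fun _ => ?_
    rw [hex]
    refine exists_congr fun j => forall_congr' fun k => ?_
    tauto
  have hD : MeasurableSet D := by
    rw [hDeq]
    refine (measurable_snd (meas_xinf a b)).inter (MeasurableSet.iUnion fun j =>
      MeasurableSet.iInter fun k => ?_)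
    refine (measurable_snd (measurableSet_Ico.compl)).union ((MeasurableSet.const _).union ?_)
    exact measurable_fst (hB k)
  have : IsProbabilityMeasure leb := by
    constructor
    rw [leb, Measure.restrict_apply_univ, Real.volume_Ico]
    norm_num
  have h1 := mul_meas_ge_le_lintegral (μ := ν) (measurable_measure_prodMk_left (ν := leb) hD) κ
  refine le_trans (le_of_eq ?_) (h1.trans ?_)
  · rfl
  rw [← Measure.prod_apply hD, Measure.prod_apply_symm hD]
  have hsec : ∀ x : ℝ, ν ((fun ω => (ω, x)) ⁻¹' D) ≤ β := by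
    intro x
    by_cases hx : x ∈ Xinf a b
    · have e : ((fun ω => (ω, x)) ⁻¹' D) = ⋃ j : ℕ, {ω | ∀ k, x ∈ Ico (a k) (b k) →
          b k - a k < 1 / ((j : ℝ) + 1) → ω ∈ B k} := by
        ext ω
        simp only [D, mem_preimage, mem_setOf_eq, mem_iUnion]
        rw [← hex]
        exact and_iff_right hx
      rw [e]
      have hmono : Monotone (fun j : ℕ => {ω | ∀ k, x ∈ Ico (a k) (b k) →
          b k - a k < 1 / ((j : ℝ) + 1) → ω ∈ B k}) := by
        intro i j hij ω hω k hk1 hk2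
        refine hω k hk1 (hk2.trans_le ?_)
        have : (i : ℝ) ≤ j := by exact_mod_cast hij
        exact one_div_le_one_div_of_le (by positivity) (by linarith)
      rw [hmono.measure_iUnion]
      refine iSup_le fun j => ?_
      obtain ⟨k, hk1, hk2⟩ := hx (1 / ((j : ℝ) + 1)) (by positivity)
      refine le_trans (measure_mono (t := B k) ?_) (hβ k)
      intro ω hω
      exact hω k hk1 hk2
    · have e : ((fun ω => (ω, x)) ⁻¹' D) = ∅ := by
        ext ω
        simp only [D, mem_preimage, mem_setOf_eq, mem_empty_iff_false, iff_false]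
        exact fun h => hx h.1
      rw [e, measure_empty]
      exact bot_le
  calc ∫⁻ x, ν ((fun ω => (ω, x)) ⁻¹' D) ∂leb ≤ ∫⁻ _, β ∂leb := lintegral_mono hsec
    _ = β := by rw [lintegral_const, measure_univ, mul_one]

end Pool.Agent.H665.IE
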